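import Mathlib
import Pool.Agent.helper14.TS.Defs
import Pool.Agent.helper43.GAP.Defs
import Pool.Agent.helper43.GAP.All

/-!
# Exact TSP in polynomial space: time `2 ^ n (1 + W / γ)` for a gap `γ` after the `r` smallest tour lengths, and `2 ^ n φ` on average

MP_e961e9_lc.  Cities `0, …, m`, so `n = m + 1` cities; distances `d e < 2 ^ B` for the ordered pairs `e` of cities (`Edge m`).
The programs have finitely many registers with integers, arithmetic expressions (`+ - * / mod <`), simultaneous assignments, sequences, loops with fixed
numbers of repetitions and branching; the running time counts all symbols of all evaluated expressions.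

Theorem: there is `C` such that for all `m, B, r ≥ 1`, with `K = (m + 1) B r`, some program with at most `K ^ C` registers and symbols whose registers always
hold at most `K ^ C` bits finds a shortest tour for all distances below `2 ^ B`; if the tours which are longer than the shortest one by less than `γ` have at
most `r` different lengths it takes at most `2 ^ m (1 + 2 ^ B / γ) K ^ C` steps (for every `γ ≥ 1`; the program does not know `γ`); and the expected number
of steps is at most `2 ^ m φ K ^ C` if the distances are independent and take every value with probability at most `φ / 2 ^ B`.

The program: stage `s` uses the `s` leading bits of the numbers `2 ^ B - d e`; its window consists of the tours whose coarse length is within `m` of the largest one and contains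
all shortest tours. The sum over the tours of the window inside a set of pairs of `G (length)`, `G` a polynomial with double roots at the lengths
found so far, is computed modulo a prime power `l ^ e`, `l ≤ (4 m + 2) 2 ^ s`, by inclusion-exclusion over the subsets of the inner cities for the `2 r + 1` moments of the length, and
by evaluation at the `l - 1` Teichmueller representatives modulo `l ^ e`, which extracts a class of coarse lengths. A round finds a tour of the window with a new length by
deletion of pairs; after at most `r` rounds either all lengths of the window are found, and the shortest tour is known, or the window has more than `r` lengths and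
the next stage begins. Windows of late stages contain only tours longer than the shortest one by less than `2 m 2 ^ B / 2 ^ s`.
-/

set_option autoImplicit false

namespace Pool.Agent.Results.MP_e961e9_lc.GapTheorem

open Finset Pool.Agent.TSPDP Pool.Agent.GAP

theorem result :
    ∃ C : ℕ, ∀ m B r : ℕ, 1 ≤ m → 1 ≤ B → 1 ≤ r →
      ∃ (R : Type) (_ : Fintype R) (P : Prog R) (inp : Edge m → R) (out : R) (tr : Edge m → R),
        Function.Injective inp ∧ Fintype.card R ≤ ((m + 1) * B * r) ^ C ∧ P.len ≤ ((m + 1) * B * r) ^ C ∧
        (∀ d : Edge m → ℕ, (∀ e, d e < 2 ^ B) →
          P.Fits (((m + 1) * B * r) ^ C) (start inp d) ∧ Correct P inp out tr d ∧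
          ∀ γ : ℕ, 1 ≤ γ → FewLengths r γ d →
            γ * P.time (start inp d) ≤ 2 ^ m * (γ + 2 ^ B) * ((m + 1) * B * r) ^ C) ∧
        ∀ (φ : ℝ) (p : Edge m → ℕ → ℝ), (∀ a v, 0 ≤ p a v) → (∀ a, ∑ v ∈ range (2 ^ B), p a v = 1) →
          (∀ a v, p a v ≤ φ / 2 ^ B) →
          ∑ d : Edge m → Fin (2 ^ B), (∏ a, p a (d a)) * (P.time (start inp fun a => (d a : ℕ)) : ℝ) ≤
            2 ^ m * φ * (((m + 1) * B * r : ℕ) : ℝ) ^ C :=
  GapMain

end Pool.Agent.Results.MP_e961e9_lc.GapTheorem
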