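import Mathlib
import Pool.Agent.helper14.TS.Defs
import Pool.Agent.helper92.TST.Asm
import Pool.Agent.helper92.TSN.Asm

/-!
# The Held-Karp dynamic program for TSP is space optimal for its time; the tradeoff near `2 ^ n`

MP_e961e9_lc.  Cities `0, …, m`, so `n = m + 1` cities.  A pure dynamic program is a list of
instructions (load a distance, load a constant, add two registers, minimum of two registers) on
`S` registers; its length `T` is the number of executed instructions.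

* Lower bound: for `0 < ε ≤ 1` and all large `m` every correct program with `S ≤ 2 ^ ((1 - ε) m)`
  registers has `T > 2 ^ ((1 + ε² / (2 ^ 34 log(16/ε) ^ 4)) m)`.  So time `2 ^ (n + o(n))` needs
  space `2 ^ (n - o(n))`.
* Upper bound: for `0 < ε ≤ 1 / 5` and all large `m` a correct program has `S ≤ 2 ^ ((1 - ε) m)` and
  `T ≤ 2 ^ ((1 + 4 ε²) m)`.
-/

namespace Pool.Agent.Results.MP_e961e9_lc.NearTwoTradeoff

open Pool.Agent.TSPDP

theorem result :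
    (∀ ε : ℝ, 0 < ε → ε ≤ 1 → ∃ m₀ : ℕ, ∀ m ≥ m₀,
      ∀ (S : ℕ) (p : List (Instr S (Edge m))) (out : Fin S),
      ((∀ d : Edge m → ℤ, (∀ e, 0 ≤ d e) → Solves p out d) ∨
        ((∀ (r : Fin S) (c : WithTop ℤ), Instr.const r c ∈ p → 0 ≤ c) ∧
          ∃ K : ℤ, 2 * (m : ℤ) + 1 ≤ K ∧
            ∀ d : Edge m → ℤ, (∀ e, d e = 1 ∨ d e = K) → Solves p out d)) →
      (S : ℝ) ≤ 2 ^ ((1 - ε) * m) →
      (2 : ℝ) ^ ((1 + ε ^ 2 / (2 ^ 34 * Real.log (16 / ε) ^ 4)) * m) < p.length) ∧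
    (∀ ε : ℝ, 0 < ε → ε ≤ 1 / 5 → ∃ m₀ : ℕ, ∀ m ≥ m₀,
      ∃ (S : ℕ) (p : List (Instr S (Edge m))) (out : Fin S),
        (∀ (r : Fin S) (c : WithTop ℤ), Instr.const r c ∈ p → c = ⊤) ∧
        (∀ d : Edge m → ℤ, Solves p out d) ∧
        (S : ℝ) ≤ 2 ^ ((1 - ε) * m) ∧ (p.length : ℝ) ≤ 2 ^ ((1 + 4 * ε ^ 2) * m)) := by
  refine ⟨fun ε h0 h1 => ?_, Pool.Agent.TSPST.Asm_main.2⟩
  obtain ⟨m₀, hm⟩ := Pool.Agent.TSPN.Asm_main ε h0 h1
  refine ⟨m₀, fun m hmm S p out hp hS => ?_⟩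
  have h := hm m hmm S p out hp hS
  have e : (ε / (2 ^ 17 * Real.log (16 / ε) ^ 2)) ^ 2 =
      ε ^ 2 / (2 ^ 34 * Real.log (16 / ε) ^ 4) := by
    rw [div_pow, mul_pow, ← pow_mul, ← pow_mul]
  rw [e] at h
  exact h

end Pool.Agent.Results.MP_e961e9_lc.NearTwoTradeoff
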