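import Mathlib
import Pool.Agent.helper14.TS.Defs
import Pool.Agent.helper92.TSL.Asm

/-!
# Sharp time-space lower bounds for pure dynamic programs for the travelling salesman problem

MP_e961e9_lc.  Cities `0, …, m`, so `n = m + 1` cities, `n ≥ 2`.  A pure dynamic program is a list of
instructions (load a distance, load a constant, add two registers, minimum of two registers) on
`S` registers; its length `T` is the number of executed instructions.

* Lower bound: for every correct program and every `k`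
  `T (4 n² S) ^ k ≥ 2 ^ ((2 - 2 ^ (-k)) n) / (256 n⁴)`.  So (`k = 1`) `S T ≥ 2 ^ (3 n / 2)` up to a
  polynomial factor, and (`k` about `log₂ n`) a polynomial number of registers forces
  `log₂ T ≥ 2 n - O((log n)²)`.
* Upper bound: `n³` registers suffice for `log₂ T ≤ 2 n - (log₂ n)² / 5` (all large `n`).
-/

namespace Pool.Agent.Results.MP_e961e9_lc.PureDPSharp

open Pool.Agent.TSPDP

theorem result :
    (∀ (m S : ℕ) (p : List (Instr S (Edge m))) (out : Fin S), 1 ≤ m →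
      ((∀ d : Edge m → ℤ, (∀ e, 0 ≤ d e) → Solves p out d) ∨
        ((∀ (r : Fin S) (c : WithTop ℤ), Instr.const r c ∈ p → 0 ≤ c) ∧
          ∃ K : ℤ, 2 * (m : ℤ) + 1 ≤ K ∧
            ∀ d : Edge m → ℤ, (∀ e, d e = 1 ∨ d e = K) → Solves p out d)) →
      ∀ k : ℕ, (2 - (1 / 2 : ℝ) ^ k) * ((m : ℝ) + 1) ≤
        Real.logb 2 p.length + k * Real.logb 2 (4 * ((m : ℝ) + 1) ^ 2 * S) +
          4 * Real.logb 2 ((m : ℝ) + 1) + 8) ∧
    (∃ m₀ : ℕ, ∀ m ≥ m₀, ∃ (S : ℕ) (p : List (Instr S (Edge m))) (out : Fin S),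
      (∀ (r : Fin S) (c : WithTop ℤ), Instr.const r c ∈ p → c = 0 ∨ c = ⊤) ∧
      (∀ d : Edge m → ℤ, Solves p out d) ∧
      S ≤ (m + 1) ^ 3 ∧
      Real.logb 2 p.length ≤ 2 * ((m : ℝ) + 1) - Real.logb 2 ((m : ℝ) + 1) ^ 2 / 5) :=
  ⟨fun m S p out hm hp => Pool.Agent.TSPL.Asm_lower m S p out hm hp,
    Pool.Agent.TSPL.Asm_upper⟩

end Pool.Agent.Results.MP_e961e9_lc.PureDPSharp
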