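import Mathlib
import Pool.Agent.helper14.TS.Defs
import Pool.Agent.helper92.TST.Asm

/-!
# Pure dynamic programs for the travelling salesman problem with space times time at most `3.2 ^ n`

MP_e961e9_lc.  Cities `0, …, m`, so `n = m + 1` cities.  A pure dynamic program is a list of
instructions (load a distance, load a constant, add two registers, minimum of two registers) on
`S` registers; its length `T` is the number of executed instructions.  The Held-Karp dynamic program
has `S · T` about `4 ^ n`, the partial order scheme of Koivisto and Parviainen `3.93 ^ n`.  The
theorem: for all large `n` there is a correct program with `S ≤ 1.44 ^ n` registers and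
`S · T ≤ 3.2 ^ n`.

The program: a prescribed sequence of covering designs.  For a half `F` of the inner cities and
allowed numbers `a i` (`b i`) of cities of `F` (of the other half) visited after `i` blocks, the tours whose
successive visited sets obey the numbers form a restricted Held-Karp program; a tour obeys the
numbers for at least a fraction `1 / (product)` of all halves `F`, so few halves cover all tours.
-/

namespace Pool.Agent.Results.MP_e961e9_lc.SpaceTimeProduct

open Pool.Agent.TSPDP

theorem result :
    ∃ m₀ : ℕ, ∀ m ≥ m₀, ∃ (S : ℕ) (p : List (Instr S (Edge m))) (out : Fin S),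
      (∀ (r : Fin S) (c : WithTop ℤ), Instr.const r c ∈ p → c = ⊤) ∧
      (∀ d : Edge m → ℤ, Solves p out d) ∧
      (S : ℝ) ≤ 1.44 ^ m ∧ (S : ℝ) * p.length ≤ 3.2 ^ m :=
  Pool.Agent.TSPST.Asm_main.1

end Pool.Agent.Results.MP_e961e9_lc.SpaceTimeProduct
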